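import Mathlib
import Pool.Agent.LVFA.Final

/-!
# MP_7e58b6_lc: the gap between `lvmc` and `lvs` is quadratic

Full answer to Q1. The definitions are in `Pool/Agent/LVFA/Defs.lean`, the lower bound (the
languages with `lvmc L ≤ 2N`, `lvs L = N²`, `N` odd) in `Pool/Agent/LVFA/Lower.lean`.
-/

namespace Pool.Agent.Results.MP_7e58b6_lc.QuadraticGap

open Pool.Agent.LVFA

/-- Over every finite alphabet with at least two letters, `(⌊m/2⌋ - 1)² ≤ G(m) ≤ m²`. -/
theorem result (α : Type) [Fintype α] (hα : 2 ≤ Fintype.card α) (m : ℕ) :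
    (m / 2 - 1) ^ 2 ≤ G α m ∧ G α m ≤ m ^ 2 :=
  main α hα m

end Pool.Agent.Results.MP_7e58b6_lc.QuadraticGap
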